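import Pool.Agent.W128.VA.Stm2

/-!
VA-KER: vectors killed by all the modes of `e` (or `f`).
-/

set_option autoImplicit false

namespace Pool.Agent.W154.VA.Ker

open Pool.Agent.W128.VA

theorem two {M : Type*} [AddCommGroup M] [Module ℂ M] (h0 : Module.End ℂ M) (w : M) (m : ℤ)
    (h1 : h0 w + (m : ℂ) • w = 0) (h2 : h0 w + ((m + 1 : ℤ) : ℂ) • w = 0) : w = 0 := by
  have h3 : ((m + 1 : ℤ) : ℂ) • w - (m : ℂ) • w = 0 := by
    have : ((m + 1 : ℤ) : ℂ) • w - (m : ℂ) • w =
        (h0 w + ((m + 1 : ℤ) : ℂ) • w) - (h0 w + (m : ℂ) • w) := by abel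
    rw [this, h1, h2, sub_zero]
  rw [← sub_smul] at h3
  have h4 : ((m + 1 : ℤ) : ℂ) - (m : ℂ) = 1 := by
    push_cast
    ring
  rw [h4, one_smul] at h3
  exact h3

theorem main.{u} : S_KER.{u} := by
  intro M _ _ gr h e f hS w
  have rel : ∀ m : ℤ, e m (f (-m) w) - f (-m) (e m w) = h 0 w + (m : ℂ) • w := by
    intro m
    have := hS.ef m (-m) w
    rw [add_neg_cancel, if_pos rfl] at this
    exact this
  constructor
  · intro he
    obtain ⟨N, hN⟩ := hS.trf w
    have key : ∀ m : ℤ, N ≤ -m → h 0 w + (m : ℂ) • w = 0 := by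
      intro m hm
      rw [← rel m, hN _ hm, he m, map_zero, map_zero, sub_zero]
    exact two (h 0) w (-N - 1) (key _ (by omega)) (key _ (by omega))
  · intro hf
    obtain ⟨N, hN⟩ := hS.tre w
    have key : ∀ m : ℤ, N ≤ m → h 0 w + (m : ℂ) • w = 0 := by
      intro m hm
      rw [← rel m, hN _ hm, hf (-m), map_zero, map_zero, sub_zero]
    exact two (h 0) w N (key _ (by omega)) (key _ (by omega))

end Pool.Agent.W154.VA.Ker
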